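import Pool.Agent.helper11.RPQ.SpecG

/-! # rpq:MCV, the majorant of `n + 1` steps -/

set_option autoImplicit false

open scoped MatrixGroups ContDiff Topology UpperHalfPlane ComplexConjugate
open UpperHalfPlane MeasureTheory Filter Set

namespace Pool.Agent.RPQ

open Pool.Agent.RS
open Pool.Agent.MS (BA BB st pf gk Dk amk)

theorem MCV_SN {C C' η ε R t : ℝ} (hR : 0 < R) (h : C ≤ C') : SN C η ε R t ⊆ SN C' η ε R t := by
  rintro q ⟨u, s, x, θ, h1, h2, h3, h4, h5⟩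
  refine ⟨u, s, x, θ, h1, h2.trans ?_, h3.trans ?_, h4.trans ?_, h5⟩
  · exact mul_le_mul_of_nonneg_right h (Real.rpow_nonneg hR.le _)
  · exact mul_le_mul_of_nonneg_right h (Real.rpow_nonneg hR.le _)
  · exact mul_le_mul_of_nonneg_right h (Real.rpow_nonneg hR.le _)

theorem MCV_mj {C η ε R : ℝ} {b : SL(2, ℝ)} : mj C η ε R b ≤ ENNReal.ofReal (C * R ^ (15 / 16 + η)) ∧
    (mj C η ε R b ≠ 0 → b ∈ Bx C η ε R) := by
  unfold mj
  constructor
  · exact Set.indicator_le_self' (fun _ _ => zero_le) b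
  · intro h
    by_contra hb
    exact h (Set.indicator_of_notMem hb _)

/-- the claim for one `n` -/
def MCV_P (C η ε : ℝ) (n : ℕ) : Prop := ∃ C' R0 : ℝ, 1 ≤ C' ∧ 1 ≤ R0 ∧ ∀ R : ℝ, R0 ≤ R → ∀ g h : SL(2, ℝ),
  mc (mj C η ε R) (tau R) n g h ≤ ENNReal.ofReal (C' * R ^ (1 - (n + 1) / 16 + η + n * ε)) ∧
  (mc (mj C η ε R) (tau R) n g h ≠ 0 → g⁻¹ * h ∈ SN C' η ε R ((n + 1) * tau R))

theorem MCV_all (hSTP : STP_stmt) (hVO2 : VO2_stmt) {C η ε : ℝ} (hC : 1 ≤ C) (hη : 0 < η) (hη1 : η ≤ 1 / 20) (hε : 0 < ε)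
    (hε1 : ε ≤ 1 / 20) : ∀ n : ℕ, MCV_P C η ε n := by
  intro n
  induction n with
  | zero =>
    obtain ⟨C3, R0, h1, h2, h3⟩ := hSTP C 1 η ε hC le_rfl hη hη1 hε hε1
    refine ⟨max C C3, R0, hC.trans (le_max_left _ _), h2, ?_⟩
    intro R hR g h
    have hR0 : 0 < R := by linarith
    have hb := MCV_mj (C := C) (η := η) (ε := ε) (R := R) (b := (g * aM (tau R))⁻¹ * h)
    constructor
    · refine hb.1.trans (ENNReal.ofReal_le_ofReal ?_)
      have e : (1 - (((0 : ℕ) : ℝ) + 1) / 16 + η + ((0 : ℕ) : ℝ) * ε) = 15 / 16 + η := by push_cast; ring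
      rw [e]
      exact mul_le_mul_of_nonneg_right (le_max_left _ _) (Real.rpow_nonneg hR0.le _)
    · intro hne
      have h4 := (h3 R hR _ (hb.2 hne)).1
      have e : aM (tau R) * ((g * aM (tau R))⁻¹ * h) = g⁻¹ * h := by group
      rw [e] at h4
      have e2 : (((0 : ℕ) : ℝ) + 1) * tau R = tau R := by push_cast; ring
      rw [e2]
      exact MCV_SN hR0 (le_max_right _ _) h4
  | succ n ih =>
    obtain ⟨C', R', a1, a2, a3⟩ := ih
    obtain ⟨C3, R3, b1, b2, b3⟩ := hSTP C C' η ε hC a1 hη hη1 hε hε1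
    obtain ⟨C4, R4, c1, c2, c3⟩ := hVO2 C C' η ε hC a1 hη hη1 hε hε1
    refine ⟨max (max (C * C' * C4) C3) 1, max R' (max R3 R4), le_max_right _ _, a2.trans (le_max_left _ _), ?_⟩
    intro R hR g h
    have hR1 : R' ≤ R := (le_max_left _ _).trans hR
    have hR3 : R3 ≤ R := (le_max_left _ _).trans ((le_max_right _ _).trans hR)
    have hR4 : R4 ≤ R := (le_max_right _ _).trans ((le_max_right _ _).trans hR)
    have hR1' : 1 ≤ R := a2.trans hR1
    have hR0 : 0 < R := by linarith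
    have hτ : 0 ≤ tau R := by
      unfold tau
      have := Real.log_nonneg hR1'
      positivity
    have hn : (0 : ℝ) ≤ (n : ℝ) + 1 := by positivity
    set S : Set SL(2, ℝ) := {p : SL(2, ℝ) | (g * aM (tau R))⁻¹ * p ∈ Bx C η ε R ∧ p⁻¹ * h ∈ SN C' η ε R (((n : ℝ) + 1) * tau R)} with hS
    have hmem : ∀ p : SL(2, ℝ), mj C η ε R ((g * aM (tau R))⁻¹ * p) * mc (mj C η ε R) (tau R) n p h ≠ 0 → p ∈ S := by
      intro p hp
      rw [mul_ne_zero_iff] at hp
      exact ⟨(MCV_mj).2 hp.1, (a3 R hR1 p h).2 hp.2⟩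
    constructor
    · show ∫⁻ p, mj C η ε R ((g * aM (tau R))⁻¹ * p) * mc (mj C η ε R) (tau R) n p h ∂mG ≤ _
      have h1 : ∀ p : SL(2, ℝ), mj C η ε R ((g * aM (tau R))⁻¹ * p) * mc (mj C η ε R) (tau R) n p h ≤
          S.indicator (fun _ => ENNReal.ofReal (C * R ^ (15 / 16 + η)) * ENNReal.ofReal (C' * R ^ (1 - ((n : ℝ) + 1) / 16 + η + n * ε))) p := by
        intro p
        by_cases hp : p ∈ S
        · rw [Set.indicator_of_mem hp]
          exact mul_le_mul' (MCV_mj).1 (a3 R hR1 p h).1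
        · rw [Set.indicator_of_notMem hp]
          by_contra hc
          exact hp (hmem p (fun h0 => hc (le_of_eq h0)))
      refine (lintegral_mono h1).trans ((lintegral_indicator_const_le _ _).trans ?_)
      refine (mul_le_mul' le_rfl (c3 R (((n : ℝ) + 1) * tau R) g h hR4 (by positivity))).trans ?_
      rw [← ENNReal.ofReal_mul (by positivity), ← ENNReal.ofReal_mul (by positivity)]
      refine ENNReal.ofReal_le_ofReal ?_
      have e : C * R ^ (15 / 16 + η) * (C' * R ^ (1 - ((n : ℝ) + 1) / 16 + η + n * ε)) * (C4 * R ^ (-1 + ε - η))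
          = C * C' * C4 * R ^ (1 - (((n + 1 : ℕ) : ℝ) + 1) / 16 + η + ((n + 1 : ℕ) : ℝ) * ε) := by
        have e1 : R ^ (1 - (((n + 1 : ℕ) : ℝ) + 1) / 16 + η + ((n + 1 : ℕ) : ℝ) * ε)
            = R ^ (15 / 16 + η) * R ^ (1 - ((n : ℝ) + 1) / 16 + η + n * ε) * R ^ (-1 + ε - η) := by
          rw [← Real.rpow_add hR0, ← Real.rpow_add hR0]
          congr 1
          push_cast
          ring
        rw [e1]
        ring
      rw [e]
      exact mul_le_mul_of_nonneg_right ((le_max_left _ _).trans (le_max_left _ _)) (Real.rpow_nonneg hR0.le _)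
    · intro hne
      have h1 : ∃ p : SL(2, ℝ), mj C η ε R ((g * aM (tau R))⁻¹ * p) * mc (mj C η ε R) (tau R) n p h ≠ 0 := by
        by_contra hc
        push Not at hc
        apply hne
        show ∫⁻ p, mj C η ε R ((g * aM (tau R))⁻¹ * p) * mc (mj C η ε R) (tau R) n p h ∂mG = 0
        rw [lintegral_congr hc, lintegral_zero]
      obtain ⟨p, hp⟩ := h1
      have h2 := hmem p hp
      have h3 := (b3 R hR3 _ h2.1).2 (((n : ℝ) + 1) * tau R) (p⁻¹ * h) (by positivity) h2.2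
      have e : aM (tau R) * ((g * aM (tau R))⁻¹ * p) * (p⁻¹ * h) = g⁻¹ * h := by group
      have e2 : tau R + ((n : ℝ) + 1) * tau R = (((n + 1 : ℕ) : ℝ) + 1) * tau R := by push_cast; ring
      rw [e, e2] at h3
      exact MCV_SN hR0 ((le_max_right _ _).trans (le_max_left _ _)) h3

theorem MCV_proof (hSTP : STP_stmt) (hVO2 : VO2_stmt) : MCV_stmt := by
  intro C η ε N hC hη hη1 hε hε1
  induction N with
  | zero => exact ⟨1, 1, le_rfl, le_rfl, fun R _ n hn => absurd hn (Nat.not_lt_zero n)⟩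
  | succ N ih =>
    obtain ⟨C1, R1, a1, a2, a3⟩ := ih
    obtain ⟨C2, R2, b1, b2, b3⟩ := MCV_all hSTP hVO2 hC hη hη1 hε hε1 N
    refine ⟨max C1 C2, max R1 R2, a1.trans (le_max_left _ _), a2.trans (le_max_left _ _), ?_⟩
    intro R hR n hn g h
    have hR1 : R1 ≤ R := (le_max_left _ _).trans hR
    have hR2 : R2 ≤ R := (le_max_right _ _).trans hR
    have hR0 : 0 < R := by linarith
    rcases Nat.lt_succ_iff_lt_or_eq.1 hn with h1 | h1
    · obtain ⟨c1, c2⟩ := a3 R hR1 n h1 g h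
      refine ⟨c1.trans (ENNReal.ofReal_le_ofReal ?_), fun hne => MCV_SN hR0 (le_max_left _ _) (c2 hne)⟩
      exact mul_le_mul_of_nonneg_right (le_max_left _ _) (Real.rpow_nonneg hR0.le _)
    · subst h1
      obtain ⟨c1, c2⟩ := b3 R hR2 g h
      refine ⟨c1.trans (ENNReal.ofReal_le_ofReal ?_), fun hne => MCV_SN hR0 (le_max_right _ _) (c2 hne)⟩
      exact mul_le_mul_of_nonneg_right (le_max_right _ _) (Real.rpow_nonneg hR0.le _)

end Pool.Agent.RPQ
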